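import Pool.Agent.Helper38.ZS2.Stmts

/-!
# Zonotope signing with cheap coordinates, module 2: weighted sums over a profile
-/

namespace Pool.Agent.Helper82.ZS2

open Finset Pool.Agent.Helper38.ZS Pool.Agent.Helper38.ZS2
open scoped Classical

noncomputable section

/-- the ratio of the geometric series -/
def qw : ℝ := (2 : ℝ) ^ (-(1 / 200 : ℝ))

lemma qw_pos : 0 < qw := by unfold qw; positivity

lemma qw_lt : qw < 1 := by
  unfold qw
  exact Real.rpow_lt_one_of_one_lt_of_neg (by norm_num) (by norm_num)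

lemma sum_natw (S : Finset ℕ) : ∑ k ∈ S, qw ^ k ≤ (1 - qw)⁻¹ :=
  sum_le_hasSum S (fun _ _ => pow_nonneg qw_pos.le _)
    (hasSum_geometric_of_lt_one qw_pos.le qw_lt)

lemma qw_natAbs (h : ℤ) : (2 : ℝ) ^ (-(|(h : ℝ)| / 200)) = qw ^ h.natAbs := by
  unfold qw
  rw [← Real.rpow_natCast, ← Real.rpow_mul (by norm_num : (0 : ℝ) ≤ 2)]
  congr 1
  rw [Nat.cast_natAbs, Int.cast_abs]
  ring

lemma sum_intw (H : Finset ℤ) : ∑ h ∈ H, (2 : ℝ) ^ (-(|(h : ℝ)| / 200)) ≤ 2 * (1 - qw)⁻¹ := by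
  have h1 : ∑ h ∈ H, (2 : ℝ) ^ (-(|(h : ℝ)| / 200)) = ∑ h ∈ H, qw ^ h.natAbs :=
    Finset.sum_congr rfl (fun h _ => qw_natAbs h)
  rw [h1, ← Finset.sum_filter_add_sum_filter_not H (fun h : ℤ => 0 ≤ h)]
  have h2 : ∑ h ∈ H.filter (fun h : ℤ => 0 ≤ h), qw ^ h.natAbs ≤ (1 - qw)⁻¹ := by
    have h3 : ∑ k ∈ (H.filter (fun h : ℤ => 0 ≤ h)).image Int.natAbs, qw ^ k
        = ∑ h ∈ H.filter (fun h : ℤ => 0 ≤ h), qw ^ h.natAbs := by
      apply Finset.sum_image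
      intro x hx y hy hxy
      have hx' := (Finset.mem_filter.mp (Finset.mem_coe.mp hx)).2
      have hy' := (Finset.mem_filter.mp (Finset.mem_coe.mp hy)).2
      have hxy' : x.natAbs = y.natAbs := hxy
      omega
    rw [← h3]
    exact sum_natw _
  have h4 : ∑ h ∈ H.filter (fun h : ℤ => ¬ 0 ≤ h), qw ^ h.natAbs ≤ (1 - qw)⁻¹ := by
    have h3 : ∑ k ∈ (H.filter (fun h : ℤ => ¬ 0 ≤ h)).image Int.natAbs, qw ^ k
        = ∑ h ∈ H.filter (fun h : ℤ => ¬ 0 ≤ h), qw ^ h.natAbs := by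
      apply Finset.sum_image
      intro x hx y hy hxy
      have hx' := (Finset.mem_filter.mp (Finset.mem_coe.mp hx)).2
      have hy' := (Finset.mem_filter.mp (Finset.mem_coe.mp hy)).2
      have hxy' : x.natAbs = y.natAbs := hxy
      omega
    rw [← h3]
    exact sum_natw _
  linarith

/-- the dyadic level: `2 ^ (hw x + 1) ≤ |x| < 2 ^ (hw x + 2)` -/
def hw (x : ℝ) : ℤ := Int.log 2 |x| - 1

lemma hw_le (x : ℝ) (hx : x ≠ 0) : (2 : ℝ) ^ (hw x + 1) ≤ |x| := by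
  unfold hw
  have := Int.zpow_log_le_self (b := 2) (r := |x|) (by norm_num) (abs_pos.mpr hx)
  simpa using this

lemma lt_hw (x : ℝ) : |x| < (2 : ℝ) ^ (hw x + 2) := by
  unfold hw
  have := Int.lt_zpow_succ_log_self (b := 2) (by norm_num) |x|
  have h1 : Int.log 2 |x| - 1 + 2 = Int.log 2 |x| + 1 := by ring
  rw [h1]
  simpa using this

lemma wlayer {ι : Type} (X Y : Finset ι) (g w : ι → ℝ) (A B : ℝ) (hA : 0 ≤ A) (hB1 : 0 ≤ B)
    (hw0 : ∀ i ∈ X, 0 ≤ w i)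
    (hyp : ∀ h : ℤ, (2 : ℝ) ^ h * ∑ i ∈ X.filter (fun i => (2 : ℝ) ^ (h + 1) ≤ |g i|), w i
      ≤ A * (2 : ℝ) ^ (|(h : ℝ)| / 40)) (hY : Y ⊆ X) (hne : ∀ i ∈ Y, g i ≠ 0)
    (F : ℤ → ℝ) (hF : ∀ h, 0 ≤ F h)
    (hB : ∀ h : ℤ, F h * ((2 : ℝ) ^ (|(h : ℝ)| / 40) * (2 : ℝ) ^ (-h))
      ≤ B * (2 : ℝ) ^ (-(|(h : ℝ)| / 200))) :
    ∑ i ∈ Y, w i * F (hw (g i)) ≤ A * B * (2 * (1 - qw)⁻¹) := by
  have h1 : ∑ i ∈ Y, w i * F (hw (g i)) = ∑ h ∈ Y.image (fun i => hw (g i)),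
      (∑ i ∈ Y.filter (fun i => hw (g i) = h), w i) * F h := by
    rw [← Finset.sum_fiberwise_of_maps_to (s := Y) (t := Y.image (fun i => hw (g i)))
      (g := fun i => hw (g i)) (fun i hi => Finset.mem_image_of_mem _ hi)]
    apply Finset.sum_congr rfl
    intro h _
    rw [Finset.sum_mul]
    apply Finset.sum_congr rfl
    intro i hi
    rw [(Finset.mem_filter.mp hi).2]
  rw [h1]
  have hB0 : ∀ h ∈ Y.image (fun i => hw (g i)),
      (∑ i ∈ Y.filter (fun i => hw (g i) = h), w i) * F h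
        ≤ A * B * (2 : ℝ) ^ (-(|(h : ℝ)| / 200)) := by
    intro h _
    have h2 : (∑ i ∈ Y.filter (fun i => hw (g i) = h), w i)
        ≤ ∑ i ∈ X.filter (fun j => (2 : ℝ) ^ (h + 1) ≤ |g j|), w i := by
      apply Finset.sum_le_sum_of_subset_of_nonneg
      · intro j hj
        obtain ⟨hj1, hj2⟩ := Finset.mem_filter.mp hj
        refine Finset.mem_filter.mpr ⟨hY hj1, ?_⟩
        rw [← hj2]
        exact hw_le _ (hne j hj1)
      · intro i hi _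
        exact hw0 i (Finset.mem_filter.mp hi).1
    have h3 : (∑ i ∈ X.filter (fun j => (2 : ℝ) ^ (h + 1) ≤ |g j|), w i)
        ≤ A * (2 : ℝ) ^ (|(h : ℝ)| / 40) * (2 : ℝ) ^ (-h) := by
      have h4 := hyp h
      have h5 : (0 : ℝ) < (2 : ℝ) ^ (-h) := by positivity
      calc (∑ i ∈ X.filter (fun j => (2 : ℝ) ^ (h + 1) ≤ |g j|), w i)
          = ((2 : ℝ) ^ h * (∑ i ∈ X.filter (fun j => (2 : ℝ) ^ (h + 1) ≤ |g j|), w i))
              * (2 : ℝ) ^ (-h) := by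
            rw [zpow_neg]
            field_simp
        _ ≤ _ := mul_le_mul_of_nonneg_right h4 h5.le
    calc (∑ i ∈ Y.filter (fun i => hw (g i) = h), w i) * F h
        ≤ (A * (2 : ℝ) ^ (|(h : ℝ)| / 40) * (2 : ℝ) ^ (-h)) * F h :=
          mul_le_mul_of_nonneg_right (h2.trans h3) (hF h)
      _ = A * (F h * ((2 : ℝ) ^ (|(h : ℝ)| / 40) * (2 : ℝ) ^ (-h))) := by ring
      _ ≤ A * (B * (2 : ℝ) ^ (-(|(h : ℝ)| / 200))) := mul_le_mul_of_nonneg_left (hB h) hA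
      _ = A * B * (2 : ℝ) ^ (-(|(h : ℝ)| / 200)) := by ring
  refine (Finset.sum_le_sum hB0).trans ?_
  rw [← Finset.mul_sum]
  exact mul_le_mul_of_nonneg_left (sum_intw _) (mul_nonneg hA hB1)

lemma two_zpow (h : ℤ) : (2 : ℝ) ^ h = (2 : ℝ) ^ (h : ℝ) := (Real.rpow_intCast 2 h).symm

/-- the value of the weight function at the top of a level -/
def FW (h : ℤ) : ℝ :=
  min (((2 : ℝ) ^ (h + 2)) ^ (97 / 100 : ℝ)) (((2 : ℝ) ^ (h + 2)) ^ (103 / 100 : ℝ))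

lemma FW_nonneg (h : ℤ) : 0 ≤ FW h := by
  unfold FW
  positivity

lemma pw (h : ℤ) (e : ℝ) :
    ((2 : ℝ) ^ (h + 2)) ^ e = (2 : ℝ) ^ (((h : ℝ) + 2) * e) := by
  rw [two_zpow, ← Real.rpow_mul (by norm_num)]
  push_cast
  rfl

lemma condw (h : ℤ) : FW h * ((2 : ℝ) ^ (|(h : ℝ)| / 40) * (2 : ℝ) ^ (-h))
      ≤ 8 * (2 : ℝ) ^ (-(|(h : ℝ)| / 200)) := by
  have h0 : (0 : ℝ) < 2 := by norm_num
  have e2 : (2 : ℝ) ^ (-h) = (2 : ℝ) ^ (-(h : ℝ)) := by
    rw [two_zpow]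
    push_cast
    rfl
  have h8 : (8 : ℝ) = (2 : ℝ) ^ (3 : ℝ) := by
    rw [show (3 : ℝ) = ((3 : ℕ) : ℝ) by norm_num, Real.rpow_natCast]
    norm_num
  rw [e2, h8, ← Real.rpow_add h0, ← Real.rpow_add h0]
  rcases le_or_gt 0 h with hh0 | hh0
  · have hx0 : (0 : ℝ) ≤ (h : ℝ) := by exact_mod_cast hh0
    rw [abs_of_nonneg hx0]
    have h1 : FW h ≤ (2 : ℝ) ^ (((h : ℝ) + 2) * (97 / 100)) := by
      unfold FW
      rw [← pw]
      exact min_le_left _ _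
    refine (mul_le_mul_of_nonneg_right h1 (by positivity)).trans ?_
    rw [← Real.rpow_add h0]
    apply Real.rpow_le_rpow_of_exponent_le (by norm_num)
    linarith
  · have hx0 : (h : ℝ) < 0 := by exact_mod_cast hh0
    rw [abs_of_neg hx0]
    have h1 : FW h ≤ (2 : ℝ) ^ (((h : ℝ) + 2) * (103 / 100)) := by
      unfold FW
      rw [← pw]
      exact min_le_right _ _
    refine (mul_le_mul_of_nonneg_right h1 (by positivity)).trans ?_
    rw [← Real.rpow_add h0]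
    apply Real.rpow_le_rpow_of_exponent_le (by norm_num)
    linarith

theorem st_wprof : ST_WPROF := by
  have hq : 0 < (1 - qw)⁻¹ := inv_pos.mpr (by linarith [qw_lt])
  refine ⟨max 1 (8 * (2 * (1 - qw)⁻¹)), le_max_left _ _, ?_⟩
  intro ι _ X g w A hA hw0 hyp
  have h1 := wlayer X (X.filter (fun i => g i ≠ 0)) g w A 8 hA (by norm_num) hw0 hyp
    (Finset.filter_subset _ _) (fun i hi => (Finset.mem_filter.mp hi).2) FW FW_nonneg condw
  have h2 : ∑ i ∈ X, w i * min (|g i| ^ (97 / 100 : ℝ)) (|g i| ^ (103 / 100 : ℝ))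
      = ∑ i ∈ X.filter (fun i => g i ≠ 0),
        w i * min (|g i| ^ (97 / 100 : ℝ)) (|g i| ^ (103 / 100 : ℝ)) := by
    symm
    apply Finset.sum_subset (Finset.filter_subset _ _)
    intro i hi hi'
    have h0 : g i = 0 := by
      by_contra hne
      exact hi' (Finset.mem_filter.mpr ⟨hi, hne⟩)
    rw [h0, abs_zero, Real.zero_rpow (by norm_num), Real.zero_rpow (by norm_num), min_self,
      mul_zero]
  rw [h2]
  have h3 : ∑ i ∈ X.filter (fun i => g i ≠ 0),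
        w i * min (|g i| ^ (97 / 100 : ℝ)) (|g i| ^ (103 / 100 : ℝ))
      ≤ ∑ i ∈ X.filter (fun i => g i ≠ 0), w i * FW (hw (g i)) := by
    apply Finset.sum_le_sum
    intro i hi
    apply mul_le_mul_of_nonneg_left _ (hw0 i (Finset.mem_filter.mp hi).1)
    unfold FW
    exact min_le_min (Real.rpow_le_rpow (abs_nonneg _) (lt_hw _).le (by norm_num))
      (Real.rpow_le_rpow (abs_nonneg _) (lt_hw _).le (by norm_num))
  refine (h3.trans h1).trans ?_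
  have h4 : A * 8 * (2 * (1 - qw)⁻¹) = (8 * (2 * (1 - qw)⁻¹)) * A := by ring
  rw [h4]
  exact mul_le_mul_of_nonneg_right (le_max_right _ _) hA

end

end Pool.Agent.Helper82.ZS2
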