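import Pool.Agent.Helper55.ZS.Piece
import Pool.Agent.Helper3.ZS.Rec

/-!
# Zonotope signing with cheap coordinates, module 4: pointwise comparison and averaging
-/

namespace Pool.Agent.Helper82.ZS2

open Finset Pool.Agent.Helper38.ZS Pool.Agent.Helper55.ZS
open scoped Classical

noncomputable section

lemma nu_pt (x y γ : ℝ) (hγ : 0 < γ) (hγ1 : γ ≤ 1) (h : γ ≤ |x|) :
    |x| ^ (19 / 20 : ℝ) ≤ (if γ / 2 ≤ |y| then 2 * |y| ^ (19 / 20 : ℝ) else 0)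
      + 8 / γ ^ 2 * (x - y) ^ 2 := by
  have h0 : 0 ≤ 8 / γ ^ 2 * (x - y) ^ 2 := by positivity
  by_cases hc : |x - y| ≤ |x| / 2
  · have h1 : |x| ≤ 2 * |y| := by
      have h2 : |x| ≤ |x - y| + |y| := by
        have h3 := abs_add_le (x - y) y
        rwa [sub_add_cancel] at h3
      linarith
    have h2 : γ / 2 ≤ |y| := by linarith
    rw [if_pos h2]
    have h3 : |x| ^ (19 / 20 : ℝ) ≤ (2 * |y|) ^ (19 / 20 : ℝ) :=
      Real.rpow_le_rpow (abs_nonneg _) h1 (by norm_num)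
    rw [Real.mul_rpow (by norm_num) (abs_nonneg _)] at h3
    have h4 : (2 : ℝ) ^ (19 / 20 : ℝ) ≤ 2 := by
      have h5 : (2 : ℝ) ^ (19 / 20 : ℝ) ≤ (2 : ℝ) ^ (1 : ℝ) :=
        Real.rpow_le_rpow_of_exponent_le (by norm_num) (by norm_num)
      rwa [Real.rpow_one] at h5
    have h5 : (2 : ℝ) ^ (19 / 20 : ℝ) * |y| ^ (19 / 20 : ℝ) ≤ 2 * |y| ^ (19 / 20 : ℝ) :=
      mul_le_mul_of_nonneg_right h4 (by positivity)
    linarith
  · have hc' : |x| / 2 < |x - y| := not_le.mp hc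
    have hpos : 0 ≤ (if γ / 2 ≤ |y| then 2 * |y| ^ (19 / 20 : ℝ) else 0) := by
      split_ifs
      · positivity
      · exact le_rfl
    have hx0 : 0 ≤ |x| := abs_nonneg x
    have h1 : |x| ^ 2 / 4 ≤ (x - y) ^ 2 := by
      have h2 : (|x| / 2) ^ 2 ≤ |x - y| ^ 2 := pow_le_pow_left₀ (by positivity) hc'.le 2
      rw [sq_abs] at h2
      nlinarith
    have h2 : |x| ^ (19 / 20 : ℝ) ≤ |x| ^ 2 / γ ^ 2 := by
      rw [le_div_iff₀ (by positivity)]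
      rcases le_total |x| 1 with hx1 | hx1
      · have h3 : |x| ^ (19 / 20 : ℝ) ≤ 1 := Real.rpow_le_one hx0 hx1 (by norm_num)
        have h4 : γ ^ 2 ≤ |x| ^ 2 := pow_le_pow_left₀ hγ.le h 2
        have h5 : 0 < γ ^ 2 := by positivity
        nlinarith
      · have h3 : |x| ^ (19 / 20 : ℝ) ≤ |x| ^ (1 : ℝ) :=
          Real.rpow_le_rpow_of_exponent_le hx1 (by norm_num)
        rw [Real.rpow_one] at h3
        have h4 : γ ^ 2 ≤ 1 := by nlinarith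
        have h5 : 0 ≤ |x| ^ (19 / 20 : ℝ) := by positivity
        nlinarith
    have h3 : |x| ^ 2 / γ ^ 2 ≤ 8 / γ ^ 2 * (x - y) ^ 2 := by
      have h4 : 8 / γ ^ 2 * (x - y) ^ 2 = 8 * (x - y) ^ 2 / γ ^ 2 := by ring
      rw [h4]
      apply div_le_div_of_nonneg_right _ (by positivity)
      nlinarith [sq_nonneg (x - y)]
    linarith

lemma sq_pt (x y γ : ℝ) (hγ : 0 < γ) (h : |x| < γ) :
    x ^ 2 ≤ (if |y| < 2 * γ then 2 * y ^ 2 else 0) + 2 * (x - y) ^ 2 := by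
  by_cases hc : |y| < 2 * γ
  · rw [if_pos hc]
    nlinarith [sq_nonneg (x - 2 * y)]
  · rw [if_neg hc]
    have h1 : γ ≤ |x - y| := by
      have h2 : |y| ≤ |x - y| + |x| := by
        have h3 := abs_sub_abs_le_abs_sub y x
        rw [abs_sub_comm y x] at h3
        linarith
      linarith [not_lt.mp hc]
    have h2 : |x| ^ 2 ≤ |x - y| ^ 2 := pow_le_pow_left₀ (abs_nonneg _) (by linarith) 2
    rw [sq_abs, sq_abs] at h2
    nlinarith [sq_nonneg (x - y)]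

lemma TT_pt (x y : ℝ) :
    |TT x - TT y| ≤ (if 1 / 2 ≤ |y| then |x - y| else 0) + 2 * (x - y) ^ 2 := by
  have h0 : 0 ≤ 2 * (x - y) ^ 2 := by positivity
  have hl := Pool.Agent.Helper3.ZS.TT_lip x y
  by_cases hc : 1 / 2 ≤ |y|
  · rw [if_pos hc]
    linarith
  · rw [if_neg hc]
    have hc' := not_le.mp hc
    by_cases hx : |x| ≤ 1
    · rw [Pool.Agent.Helper3.ZS.TT_zero hx, Pool.Agent.Helper3.ZS.TT_zero (by linarith), sub_zero,
        abs_zero]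
      linarith
    · have hx' := not_le.mp hx
      have h1 : 1 / 2 ≤ |x - y| := by
        have h2 := abs_sub_abs_le_abs_sub x y
        linarith
      have h2 : |x - y| ≤ 2 * (x - y) ^ 2 := by
        rw [← sq_abs (x - y)]
        nlinarith
      linarith

lemma cnt_pt (x y : ℝ) :
    (if 1 / 2 ≤ |x| then (1 : ℝ) else 0)
      ≤ (if 1 / 4 ≤ |y| then (1 : ℝ) else 0) + 16 * (x - y) ^ 2 := by
  have h0 : 0 ≤ 16 * (x - y) ^ 2 := by positivity
  by_cases hc : 1 / 4 ≤ |y|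
  · rw [if_pos hc]
    split_ifs <;> linarith
  · rw [if_neg hc]
    by_cases hx : 1 / 2 ≤ |x|
    · rw [if_pos hx]
      have h1 : 1 / 4 ≤ |x - y| := by
        have h2 := abs_sub_abs_le_abs_sub x y
        linarith [not_le.mp hc]
      have h2 : (1 / 4 : ℝ) ^ 2 ≤ |x - y| ^ 2 := pow_le_pow_left₀ (by norm_num) h1 2
      rw [sq_abs] at h2
      linarith
    · rw [if_neg hx]
      linarith

/-- averaging over the pieces -/
theorem core (hPART : ST_PART) {ι : Type} [Fintype ι] (P : ι → ι → ℝ) (V : Finset ι)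
    (g ξ : ι → ℝ) (β γ κ L m0 e0 c1 c2 c3 : ℝ) (hP : IsPr P) (hβ : 0 < β) (hβ1 : β ≤ 1)
    (hγ : 0 < γ) (hγ1 : γ ≤ 1) (hκ : 0 < κ) (hL : 1 ≤ L) (hm0 : 0 < m0) (he0p : 0 < e0)
    (hc1p : 0 < c1) (hc2p : 0 < c2) (hc3p : 0 < c3) (hξ : ∀ i ∈ V, |ξ i| ≤ 1)
    (hb : 7 / 16 * β * m0 ≤ ∑ i ∈ V, ξ i * TT (g i))
    (hm : ∑ i ∈ V, |TT (g i)| ≤ (1 + β / 16) * m0)
    (hnuG : nu g (univ.filter (fun i => γ ≤ |g i|)) ≤ c1 * m0)
    (hnuM : nu g ((univ.filter (fun i => γ ≤ |g i|)) \ V) ≤ c2 * m0 / L)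
    (hcard : (#(((univ.filter (fun i => γ ≤ |g i|)) ∩ V).filter (fun i => 1 / 2 ≤ |g i|)) : ℝ)
      ≤ c3 * m0)
    (hDG : DD P g (univ.filter (fun i => γ ≤ |g i|)) + 40 * κ / γ * (c1 * m0) ≤ e0 * m0) :
    ∃ (Z : Finset ι) (m : ℝ), m = ∑ i ∈ Z ∩ V, |TT (g i)| ∧ 0 < m ∧
      β / 4 * m < ∑ i ∈ Z ∩ V, ξ i * TT (g i) ∧ (∀ i ∈ Z, γ ≤ |g i|) ∧ Link P κ Z g ∧
      nu g Z ≤ 32 / β * m * c1 ∧ L * nu g (Z \ V) ≤ 32 / β * m * c2 ∧
      DD P g Z ≤ 32 / β * m * e0 ∧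
      (#((Z ∩ V).filter (fun i => 1 / 2 ≤ |g i|)) : ℝ) ≤ 32 / β * m * c3 := by
  have hL0 : 0 < L := by linarith
  set G : Finset ι := univ.filter (fun i => γ ≤ |g i|) with hGdef
  -- partition
  obtain ⟨Q, hQ1, hQ2, hQ3, hQ4, hQ5⟩ := hPART ι P g G γ κ hP hγ hγ1 hκ
    (fun i hi => (Finset.mem_filter.mp hi).2)
  have hTT0 : ∀ i, i ∉ G → TT (g i) = 0 := by
    intro i hi
    have h1 : |g i| < γ := by
      by_contra hcon
      exact hi (Finset.mem_filter.mpr ⟨Finset.mem_univ _, not_lt.mp hcon⟩)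
    exact Pool.Agent.Helper3.ZS.TT_zero (by linarith)
  have hGVsum : ∀ φ : ι → ℝ, (∀ i, i ∉ G → φ i = 0) → ∑ i ∈ G ∩ V, φ i = ∑ i ∈ V, φ i := by
    intro φ hφ
    apply Finset.sum_subset Finset.inter_subset_right
    intro i hi hi2
    apply hφ
    intro hcon
    exact hi2 (Finset.mem_inter.mpr ⟨hcon, hi⟩)
  set mm : Finset ι → ℝ := fun Z => ∑ i ∈ Z ∩ V, |TT (g i)| with hmm
  set bb : Finset ι → ℝ := fun Z => ∑ i ∈ Z ∩ V, ξ i * TT (g i) with hbb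
  set kk : Finset ι → ℝ := fun Z => (#((Z ∩ V).filter (fun i => 1 / 2 ≤ |g i|)) : ℝ) with hkk
  have smm : ∑ Z ∈ Q, mm Z ≤ (1 + β / 16) * m0 := by
    refine le_trans (le_of_eq ?_) hm
    rw [hmm]
    rw [sum_pieces_inter V hQ2 hQ3 (fun i => |TT (g i)|),
      hGVsum (fun i => |TT (g i)|) (fun i hi => by rw [hTT0 i hi, abs_zero])]
  have sbb : 7 / 16 * β * m0 ≤ ∑ Z ∈ Q, bb Z := by
    refine le_trans hb (le_of_eq ?_)
    rw [hbb]
    rw [sum_pieces_inter V hQ2 hQ3 (fun i => ξ i * TT (g i)),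
      hGVsum (fun i => ξ i * TT (g i)) (fun i hi => by rw [hTT0 i hi, mul_zero])]
  have skk : ∑ Z ∈ Q, kk Z ≤ c3 * m0 := by
    have h1 : ∑ Z ∈ Q, kk Z = (#((G ∩ V).filter (fun i => 1 / 2 ≤ |g i|)) : ℝ) := by
      rw [hkk]
      simp only [card_eq_sum]
      exact sum_pieces_inter V hQ2 hQ3 _
    rw [h1]
    exact hcard
  have snu : ∑ Z ∈ Q, nu g Z ≤ c1 * m0 := by
    have h1 : ∑ Z ∈ Q, nu g Z = nu g G := by
      unfold nu
      exact sum_pieces hQ2 hQ3 _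
    rw [h1]
    exact hnuG
  have snv : ∑ Z ∈ Q, nu g (Z \ V) ≤ c2 * m0 / L := by
    have h1 : ∑ Z ∈ Q, nu g (Z \ V) = nu g (G \ V) := by
      unfold nu
      exact sum_pieces_sdiff V hQ2 hQ3 _
    rw [h1]
    exact hnuM
  have sDD : ∑ Z ∈ Q, DD P g Z ≤ e0 * m0 := by
    have h1 : 40 * κ / γ * nu g G ≤ 40 * κ / γ * (c1 * m0) :=
      mul_le_mul_of_nonneg_left hnuG (by positivity)
    linarith
  -- averaging
  have havg : 0 < ∑ Z ∈ Q, (bb Z - β / 4 * mm Z - β / 32 * (DD P g Z / e0 + nu g Z / c1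
      + L * nu g (Z \ V) / c2 + kk Z / c3)) := by
    have h1 : ∑ Z ∈ Q, (bb Z - β / 4 * mm Z - β / 32 * (DD P g Z / e0 + nu g Z / c1
        + L * nu g (Z \ V) / c2 + kk Z / c3))
        = ∑ Z ∈ Q, bb Z - β / 4 * ∑ Z ∈ Q, mm Z - β / 32 * ((∑ Z ∈ Q, DD P g Z) / e0
          + (∑ Z ∈ Q, nu g Z) / c1 + L * (∑ Z ∈ Q, nu g (Z \ V)) / c2 + (∑ Z ∈ Q, kk Z) / c3) := by
      simp only [Finset.sum_sub_distrib, ← Finset.mul_sum, Finset.sum_add_distrib,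
        ← Finset.sum_div]
    rw [h1]
    have h2 : (∑ Z ∈ Q, DD P g Z) / e0 ≤ m0 := by
      rw [div_le_iff₀ he0p]
      linarith
    have h3 : (∑ Z ∈ Q, nu g Z) / c1 ≤ m0 := by
      rw [div_le_iff₀ hc1p]
      linarith
    have h4 : L * (∑ Z ∈ Q, nu g (Z \ V)) / c2 ≤ m0 := by
      rw [div_le_iff₀ hc2p]
      have h5 := mul_le_mul_of_nonneg_left snv hL0.le
      have h6 : L * (c2 * m0 / L) = m0 * c2 := by
        field_simp
      linarith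
    have h5 : (∑ Z ∈ Q, kk Z) / c3 ≤ m0 := by
      rw [div_le_iff₀ hc3p]
      linarith
    have h6 : β / 4 * ∑ Z ∈ Q, mm Z ≤ β / 4 * ((1 + β / 16) * m0) :=
      mul_le_mul_of_nonneg_left smm (by positivity)
    have h7 : β / 32 * ((∑ Z ∈ Q, DD P g Z) / e0
          + (∑ Z ∈ Q, nu g Z) / c1 + L * (∑ Z ∈ Q, nu g (Z \ V)) / c2 + (∑ Z ∈ Q, kk Z) / c3)
        ≤ β / 32 * (4 * m0) := mul_le_mul_of_nonneg_left (by linarith) (by positivity)
    have h8 : 0 < β * m0 := by positivity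
    have h9 : β * (β * m0) ≤ 1 * (β * m0) := mul_le_mul_of_nonneg_right hβ1 h8.le
    nlinarith
  obtain ⟨Z, hZ, hZpos⟩ : ∃ Z ∈ Q, 0 < bb Z - β / 4 * mm Z - β / 32 * (DD P g Z / e0
      + nu g Z / c1 + L * nu g (Z \ V) / c2 + kk Z / c3) := by
    by_contra hcon
    push Not at hcon
    have := Finset.sum_nonpos hcon
    linarith
  have hZG : Z ⊆ G := by
    rw [← hQ3]
    exact Finset.subset_biUnion_of_mem id hZ
  have hDD0 : 0 ≤ DD P g Z / e0 := div_nonneg (DD_nonneg P g Z) he0p.le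
  have hnu0 : 0 ≤ nu g Z / c1 := div_nonneg (nu_nonneg g Z) hc1p.le
  have hnv0 : 0 ≤ L * nu g (Z \ V) / c2 :=
    div_nonneg (mul_nonneg hL0.le (nu_nonneg g _)) hc2p.le
  have hkk0 : 0 ≤ kk Z / c3 := div_nonneg (Nat.cast_nonneg _) hc3p.le
  have hmm0 : 0 ≤ mm Z := Finset.sum_nonneg (fun _ _ => abs_nonneg _)
  have hbm : bb Z ≤ mm Z := by
    apply Finset.sum_le_sum
    intro i hi
    have h1 := hξ i (Finset.mem_inter.mp hi).2
    calc ξ i * TT (g i) ≤ |ξ i * TT (g i)| := le_abs_self _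
      _ = |ξ i| * |TT (g i)| := abs_mul _ _
      _ ≤ 1 * |TT (g i)| := mul_le_mul_of_nonneg_right h1 (abs_nonneg _)
      _ = |TT (g i)| := one_mul _
  have hβ32 : 0 < β / 32 := by positivity
  have hsum0 : 0 ≤ β / 32 * (DD P g Z / e0 + nu g Z / c1 + L * nu g (Z \ V) / c2 + kk Z / c3) := by
    positivity
  have hβm : 0 ≤ β / 4 * mm Z := by positivity
  have hmpos : 0 < mm Z := by linarith
  -- each quantity
  have hone : ∀ x : ℝ, x ≤ DD P g Z / e0 + nu g Z / c1 + L * nu g (Z \ V) / c2 + kk Z / c3 →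
      x ≤ 32 / β * mm Z := by
    intro x hx
    have h1 : β / 32 * x ≤ mm Z := by
      have := mul_le_mul_of_nonneg_left hx hβ32.le
      linarith
    have h2 : x = 32 / β * (β / 32 * x) := by
      field_simp
    rw [h2]
    exact mul_le_mul_of_nonneg_left h1 (by positivity)
  have q1 := hone (DD P g Z / e0) (by linarith)
  have q2 := hone (nu g Z / c1) (by linarith)
  have q3 := hone (L * nu g (Z \ V) / c2) (by linarith)
  have q4 := hone (kk Z / c3) (by linarith)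
  rw [div_le_iff₀ he0p] at q1
  rw [div_le_iff₀ hc1p] at q2
  rw [div_le_iff₀ hc2p] at q3
  rw [div_le_iff₀ hc3p] at q4
  refine ⟨Z, mm Z, rfl, hmpos, by linarith, ?_, hQ4 Z hZ, q2, q3, q1, q4⟩
  intro i hi
  exact (Finset.mem_filter.mp (hZG hi)).2

end

end Pool.Agent.Helper82.ZS2
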