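import Pool.Agent.Helper38.ZS2.Stmts
import Pool.Agent.Helper82.ZS2.Core

/-!
# Zonotope signing with cheap coordinates, module 4: a bad vector has a bad piece
-/

namespace Pool.Agent.Helper82.ZS2

open Finset Pool.Agent.Helper38.ZS Pool.Agent.Helper38.ZS2 Pool.Agent.Helper55.ZS
open scoped Classical

noncomputable section

/-- comparison of the weights -/
lemma nu_cmp {ι : Type} [Fintype ι] (X : Finset ι) (g g' : ι → ℝ) (γ E : ℝ) (hγ : 0 < γ)
    (hγ1 : γ ≤ 1) (hE : ∑ i ∈ X, (g' i - g i) ^ 2 ≤ E) :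
    nu g' (X.filter (fun i => γ ≤ |g' i|))
      ≤ 2 * nu g (X.filter (fun i => γ / 2 ≤ |g i|)) + 8 / γ ^ 2 * E := by
  have h1 : nu g' (X.filter (fun i => γ ≤ |g' i|))
      ≤ ∑ i ∈ X.filter (fun i => γ ≤ |g' i|),
        ((if γ / 2 ≤ |g i| then 2 * |g i| ^ (19 / 20 : ℝ) else 0)
          + 8 / γ ^ 2 * (g' i - g i) ^ 2) := by
    unfold nu
    apply Finset.sum_le_sum
    intro i hi
    exact nu_pt (g' i) (g i) γ hγ hγ1 (Finset.mem_filter.mp hi).2
  have h2 : ∑ i ∈ X.filter (fun i => γ ≤ |g' i|),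
        ((if γ / 2 ≤ |g i| then 2 * |g i| ^ (19 / 20 : ℝ) else 0)
          + 8 / γ ^ 2 * (g' i - g i) ^ 2)
      ≤ ∑ i ∈ X, ((if γ / 2 ≤ |g i| then 2 * |g i| ^ (19 / 20 : ℝ) else 0)
          + 8 / γ ^ 2 * (g' i - g i) ^ 2) := by
    apply Finset.sum_le_sum_of_subset_of_nonneg (Finset.filter_subset _ _)
    intro i _ _
    split_ifs <;> positivity
  refine (h1.trans h2).trans ?_
  rw [Finset.sum_add_distrib, ← Finset.mul_sum]
  have h3 : ∑ i ∈ X, (if γ / 2 ≤ |g i| then 2 * |g i| ^ (19 / 20 : ℝ) else 0)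
      = 2 * nu g (X.filter (fun i => γ / 2 ≤ |g i|)) := by
    unfold nu
    rw [Finset.mul_sum, Finset.sum_filter]
  rw [h3]
  have h4 : 8 / γ ^ 2 * ∑ i ∈ X, (g' i - g i) ^ 2 ≤ 8 / γ ^ 2 * E :=
    mul_le_mul_of_nonneg_left hE (by positivity)
  linarith

/-- comparison of the small parts -/
lemma sq_cmp {ι : Type} [Fintype ι] (X : Finset ι) (g g' : ι → ℝ) (γ E : ℝ) (hγ : 0 < γ)
    (hE : ∑ i ∈ X, (g' i - g i) ^ 2 ≤ E) :
    ∑ i ∈ X.filter (fun i => |g' i| < γ), g' i ^ 2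
      ≤ 2 * ∑ i ∈ X.filter (fun i => |g i| < 2 * γ), g i ^ 2 + 2 * E := by
  have h1 : ∑ i ∈ X.filter (fun i => |g' i| < γ), g' i ^ 2
      ≤ ∑ i ∈ X.filter (fun i => |g' i| < γ),
        ((if |g i| < 2 * γ then 2 * g i ^ 2 else 0) + 2 * (g' i - g i) ^ 2) := by
    apply Finset.sum_le_sum
    intro i hi
    exact sq_pt (g' i) (g i) γ hγ (Finset.mem_filter.mp hi).2
  have h2 : ∑ i ∈ X.filter (fun i => |g' i| < γ),
        ((if |g i| < 2 * γ then 2 * g i ^ 2 else 0) + 2 * (g' i - g i) ^ 2)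
      ≤ ∑ i ∈ X, ((if |g i| < 2 * γ then 2 * g i ^ 2 else 0) + 2 * (g' i - g i) ^ 2) := by
    apply Finset.sum_le_sum_of_subset_of_nonneg (Finset.filter_subset _ _)
    intro i _ _
    split_ifs <;> positivity
  refine (h1.trans h2).trans ?_
  rw [Finset.sum_add_distrib, ← Finset.mul_sum]
  have h3 : ∑ i ∈ X, (if |g i| < 2 * γ then 2 * g i ^ 2 else 0)
      = 2 * ∑ i ∈ X.filter (fun i => |g i| < 2 * γ), g i ^ 2 := by
    rw [Finset.mul_sum, Finset.sum_filter]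
  rw [h3]
  linarith

/-- comparison of the gain -/
lemma TT_cmp {ι : Type} [Fintype ι] (X : Finset ι) (g g' : ι → ℝ) (lam E : ℝ) (hl : 0 < lam)
    (hE : ∑ i ∈ X, (g' i - g i) ^ 2 ≤ E) :
    ∑ i ∈ X, |TT (g' i) - TT (g i)|
      ≤ lam / 2 * (#(X.filter (fun i => 1 / 2 ≤ |g i|)) : ℝ) + (1 / (2 * lam) + 2) * E := by
  have h1 : ∀ i ∈ X, |TT (g' i) - TT (g i)|
      ≤ (if 1 / 2 ≤ |g i| then lam / 2 else 0) + (1 / (2 * lam) + 2) * (g' i - g i) ^ 2 := by
    intro i _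
    refine (TT_pt (g' i) (g i)).trans ?_
    have h2 : |g' i - g i| ≤ lam / 2 + 1 / (2 * lam) * (g' i - g i) ^ 2 := by
      rw [← sq_abs (g' i - g i)]
      have h3 : lam / 2 + 1 / (2 * lam) * |g' i - g i| ^ 2 - |g' i - g i|
          = (lam - |g' i - g i|) ^ 2 / (2 * lam) := by
        field_simp
        ring
      have h4 : 0 ≤ (lam - |g' i - g i|) ^ 2 / (2 * lam) := by positivity
      linarith
    have h5 : 0 ≤ 1 / (2 * lam) * (g' i - g i) ^ 2 := by positivity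
    split_ifs <;> nlinarith
  refine (Finset.sum_le_sum h1).trans ?_
  rw [Finset.sum_add_distrib, ← Finset.mul_sum]
  have h3 : ∑ i ∈ X, (if 1 / 2 ≤ |g i| then lam / 2 else 0)
      = lam / 2 * (#(X.filter (fun i => 1 / 2 ≤ |g i|)) : ℝ) := by
    rw [← Finset.sum_filter, Finset.sum_const, nsmul_eq_mul]
    ring
  rw [h3]
  have h4 : (1 / (2 * lam) + 2) * ∑ i ∈ X, (g' i - g i) ^ 2 ≤ (1 / (2 * lam) + 2) * E :=
    mul_le_mul_of_nonneg_left hE (by positivity)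
  linarith

/-- comparison of the number of medium points -/
lemma cnt_cmp {ι : Type} [Fintype ι] (X : Finset ι) (g g' : ι → ℝ) (E : ℝ)
    (hE : ∑ i ∈ X, (g' i - g i) ^ 2 ≤ E) :
    (#(X.filter (fun i => 1 / 2 ≤ |g' i|)) : ℝ)
      ≤ (#(X.filter (fun i => 1 / 4 ≤ |g i|)) : ℝ) + 16 * E := by
  have h1 : (#(X.filter (fun i => 1 / 2 ≤ |g' i|)) : ℝ)
      = ∑ i ∈ X, (if 1 / 2 ≤ |g' i| then (1 : ℝ) else 0) := by
    rw [Finset.sum_boole]
  have h2 : (#(X.filter (fun i => 1 / 4 ≤ |g i|)) : ℝ)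
      = ∑ i ∈ X, (if 1 / 4 ≤ |g i| then (1 : ℝ) else 0) := by
    rw [Finset.sum_boole]
  rw [h1, h2]
  have h3 : ∑ i ∈ X, (if 1 / 2 ≤ |g' i| then (1 : ℝ) else 0)
      ≤ ∑ i ∈ X, ((if 1 / 4 ≤ |g i| then (1 : ℝ) else 0) + 16 * (g' i - g i) ^ 2) :=
    Finset.sum_le_sum (fun i _ => cnt_pt (g' i) (g i))
  rw [Finset.sum_add_distrib, ← Finset.mul_sum] at h3
  linarith

lemma pow_small (a : ℝ) (ha : |a| / 40 ≤ 1) : (2 : ℝ) ^ (|a| / 40) ≤ 2 := by
  have h7 := Real.rpow_le_rpow_of_exponent_le (by norm_num : (1 : ℝ) ≤ 2) ha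
  rwa [Real.rpow_one] at h7

theorem st_piece2 (hLEV : ST_LEVEL2) (hPROF : ST_PROF) (hQ : ST_QUANT) (hPART : ST_PART) :
    ST_PIECE2 := by
  obtain ⟨C0, hC0, hlev⟩ := hLEV
  obtain ⟨D0, hD0, hprof⟩ := hPROF
  intro β hβ hβ1
  have hββ : β ^ 2 ≤ 1 := by nlinarith
  refine ⟨544 * C0 / β ^ 2, ?_, ?_⟩
  · rw [le_div_iff₀ (by positivity)]
    nlinarith
  intro ε hε hε1
  have hCD : 1 ≤ D0 * C0 := by nlinarith
  obtain ⟨t, ht⟩ : ∃ t : ℝ, t = ε * β ^ 2 / (384 * (D0 * C0)) := ⟨_, rfl⟩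
  have ht0 : 0 < t := by rw [ht]; positivity
  have ht1 : t ≤ 1 := by
    rw [ht, div_le_one (by positivity)]
    nlinarith [mul_le_mul hε1 hββ (by positivity) (by norm_num)]
  have hte : 384 * (D0 * C0) * t = ε * β ^ 2 := by
    rw [ht]
    field_simp
  obtain ⟨γ, hγdef⟩ : ∃ γ : ℝ, γ = t ^ 2 / 2 := ⟨_, rfl⟩
  have hγ : 0 < γ := by rw [hγdef]; positivity
  have hγ2 : 2 * γ ≤ 1 := by
    rw [hγdef]
    nlinarith
  have hγ1 : γ ≤ 1 := by linarith
  have hsq : Real.sqrt (2 * γ) = t := by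
    have : 2 * γ = t ^ 2 := by rw [hγdef]; ring
    rw [this]
    exact Real.sqrt_sq ht0.le
  obtain ⟨c1, hc1⟩ : ∃ c1 : ℝ, c1 = 8 * (D0 * C0) / (γ * β) + 1 := ⟨_, rfl⟩
  obtain ⟨c2, hc2⟩ : ∃ c2 : ℝ, c2 = 4 * (D0 * C0) / γ + 1 := ⟨_, rfl⟩
  obtain ⟨c3, hc3⟩ : ∃ c3 : ℝ, c3 = 17 * C0 / β := ⟨_, rfl⟩
  have hc1p : 0 < c1 := by rw [hc1]; positivity
  have hc11 : 1 ≤ c1 := by
    rw [hc1]
    have : 0 ≤ 8 * (D0 * C0) / (γ * β) := by positivity
    linarith
  have hc2p : 0 < c2 := by rw [hc2]; positivity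
  have hc3p : 0 < c3 := by rw [hc3]; positivity
  obtain ⟨κ, hκdef⟩ : ∃ κ : ℝ, κ = γ * ε * β / (3840 * c1) := ⟨_, rfl⟩
  have hκ : 0 < κ := by rw [hκdef]; positivity
  have hκ1 : κ ≤ 1 := by
    rw [hκdef, div_le_one (by positivity)]
    have h1 : γ * ε ≤ 1 := by nlinarith
    have h2 : γ * ε * β ≤ 1 := by nlinarith [mul_pos hγ hε]
    linarith
  have hC : 1 ≤ 32 / β * (c1 + c2) := by
    have h1 : 1 ≤ 32 / β := by
      rw [le_div_iff₀ hβ]
      linarith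
    have h2 : 1 ≤ c1 + c2 := by linarith
    calc (1 : ℝ) = 1 * 1 := by ring
      _ ≤ _ := mul_le_mul h1 h2 (by norm_num) (by positivity)
  refine ⟨γ, κ, 32 / β * (c1 + c2), hγ, hγ1, hκ, hκ1, hC, ?_⟩
  intro L hL
  have hL0 : 0 < L := by linarith
  -- the allowed noise
  obtain ⟨lam, hlam⟩ : ∃ lam : ℝ, lam = β ^ 2 / (192 * C0) := ⟨_, rfl⟩
  have hlam0 : 0 < lam := by rw [hlam]; positivity
  have hC0p : 0 < C0 := by linarith
  obtain ⟨ρ, hρ0, hρ1, hρ2, hρ3, hρ4⟩ : ∃ ρ : ℝ, 0 < ρ ∧ (8 / γ ^ 2 + 1) * ρ ≤ 1 / L ∧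
      3 * ρ ≤ ε * β / 96 ∧ (1 / (2 * lam) + 2) * ρ ≤ β / 24 ∧ 16 * ρ ≤ 1 := by
    refine ⟨min (min (1 / L / (8 / γ ^ 2 + 1)) (ε * β / 96 / 3))
      (min (β / 24 / (1 / (2 * lam) + 2)) (1 / 16)), by positivity, ?_, ?_, ?_, ?_⟩
    · have h1 : min (min (1 / L / (8 / γ ^ 2 + 1)) (ε * β / 96 / 3))
          (min (β / 24 / (1 / (2 * lam) + 2)) (1 / 16)) ≤ 1 / L / (8 / γ ^ 2 + 1) :=
        (min_le_left _ _).trans (min_le_left _ _)
      rw [le_div_iff₀ (by positivity)] at h1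
      linarith
    · have h1 : min (min (1 / L / (8 / γ ^ 2 + 1)) (ε * β / 96 / 3))
          (min (β / 24 / (1 / (2 * lam) + 2)) (1 / 16)) ≤ ε * β / 96 / 3 :=
        (min_le_left _ _).trans (min_le_right _ _)
      linarith
    · have h1 : min (min (1 / L / (8 / γ ^ 2 + 1)) (ε * β / 96 / 3))
          (min (β / 24 / (1 / (2 * lam) + 2)) (1 / 16)) ≤ β / 24 / (1 / (2 * lam) + 2) :=
        (min_le_right _ _).trans (min_le_left _ _)
      rw [le_div_iff₀ (by positivity)] at h1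
      linarith
    · have h1 : min (min (1 / L / (8 / γ ^ 2 + 1)) (ε * β / 96 / 3))
          (min (β / 24 / (1 / (2 * lam) + 2)) (1 / 16)) ≤ 1 / 16 :=
        (min_le_right _ _).trans (min_le_right _ _)
      linarith
  obtain ⟨θ0, hθ0, hθ1, hquant⟩ := hQ (ρ / C0) γ (by positivity) hγ hγ1
  refine ⟨θ0, hθ0, hθ1, ?_⟩
  intro ι _ P V W th B f ξ hP hVW hCh hf hξ hbad
  obtain ⟨w, hw⟩ : ∃ w : ι → ℝ, w = fun i => if i ∈ W then th i ^ (1 / 200 : ℝ) else L := ⟨_, rfl⟩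
  have hw0 : ∀ i, 0 ≤ w i := by
    intro i
    rw [hw]
    by_cases hi : i ∈ W
    · simp only [hi, if_true]
      exact Real.rpow_nonneg (hCh.pos i hi).le _
    · simp only [hi, if_false]
      exact hL0.le
  have hsplit : ∀ φ : ι → ℝ, ∑ i ∈ Vᶜ, φ i = ∑ i ∈ (V ∪ W)ᶜ, φ i + ∑ i ∈ W, φ i := by
    intro φ
    have h1 : Vᶜ = (V ∪ W)ᶜ ∪ W := by
      ext i
      have := Finset.disjoint_left.mp hVW
      simp only [Finset.mem_union, Finset.mem_compl]
      constructor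
      · intro h
        by_cases hi : i ∈ W
        · exact Or.inr hi
        · exact Or.inl (by tauto)
      · rintro (h | h)
        · tauto
        · intro hV
          exact this hV h
    have h2 : Disjoint (V ∪ W)ᶜ W := by
      rw [Finset.disjoint_left]
      intro i hi hi2
      rw [Finset.mem_compl] at hi
      exact hi (Finset.mem_union_right _ hi2)
    rw [h1, Finset.sum_union h2]
  have hbad2 : β * l1 f V + ∑ i ∈ Vᶜ, w i * |f i| < ∑ i ∈ V, ξ i * f i := by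
    refine lt_of_le_of_lt (le_of_eq ?_) hbad
    rw [hsplit, add_assoc]
    congr 2
    · unfold l1
      rw [Finset.mul_sum]
      apply Finset.sum_congr rfl
      intro i hi
      rw [hw]
      have h1 : i ∉ W := by
        intro hcon
        rw [Finset.mem_compl] at hi
        exact hi (Finset.mem_union_right _ hcon)
      simp only [h1, if_false]
    · apply Finset.sum_congr rfl
      intro i hi
      rw [hw]
      simp only [hi, if_true]
  obtain ⟨s, hs, hm0, hb, hN⟩ := hlev ι V f ξ w β hβ hβ1 hw0 hξ hbad2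
  obtain ⟨g, hgdef⟩ : ∃ g : ι → ℝ, g = fun i => s * f i := ⟨_, rfl⟩
  have hgi : ∀ i, s * f i = g i := by
    intro i
    rw [hgdef]
  simp only [hgi] at hm0 hb hN
  obtain ⟨m0, hm0def⟩ : ∃ m0 : ℝ, m0 = ∑ i ∈ V, |TT (g i)| := ⟨_, rfl⟩
  rw [← hm0def] at hm0 hb hN
  have hg : ap P g = g := by
    funext i
    rw [hgdef, ap_smul, hf]
  -- the three profiles
  have hpow : ∀ h : ℤ, (0 : ℝ) < (2 : ℝ) ^ h := fun h => by positivity
  have hNV : ∀ h : ℤ, (2 : ℝ) ^ h * (#(V.filter (fun i => (2 : ℝ) ^ (h + 1) ≤ |g i|)) : ℝ)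
      ≤ C0 * m0 / β * (2 : ℝ) ^ (|(h : ℝ)| / 40) := by
    intro h
    have h1 := hN h
    have h3 : 0 ≤ (2 : ℝ) ^ h * ∑ i ∈ Vᶜ.filter (fun i => (2 : ℝ) ^ (h + 1) ≤ |g i|), w i :=
      mul_nonneg (hpow h).le (Finset.sum_nonneg (fun i _ => hw0 i))
    have h4 : C0 * m0 / β * (2 : ℝ) ^ (|(h : ℝ)| / 40)
        = (C0 * (2 : ℝ) ^ (|(h : ℝ)| / 40) * m0) / β := by ring
    rw [h4, le_div_iff₀ hβ]
    nlinarith
  have hNX : ∀ h : ℤ, (2 : ℝ) ^ h
        * (#(((V ∪ W)ᶜ).filter (fun i => (2 : ℝ) ^ (h + 1) ≤ |g i|)) : ℝ)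
      ≤ C0 * m0 / L * (2 : ℝ) ^ (|(h : ℝ)| / 40) := by
    intro h
    have h1 := hN h
    have h2 : 0 ≤ (2 : ℝ) ^ h * (β * (#(V.filter (fun i => (2 : ℝ) ^ (h + 1) ≤ |g i|)) : ℝ)) := by
      positivity
    have h3 : L * (#(((V ∪ W)ᶜ).filter (fun i => (2 : ℝ) ^ (h + 1) ≤ |g i|)) : ℝ)
        ≤ ∑ i ∈ Vᶜ.filter (fun i => (2 : ℝ) ^ (h + 1) ≤ |g i|), w i := by
      have h5 : L * (#(((V ∪ W)ᶜ).filter (fun i => (2 : ℝ) ^ (h + 1) ≤ |g i|)) : ℝ)
          = ∑ i ∈ ((V ∪ W)ᶜ).filter (fun i => (2 : ℝ) ^ (h + 1) ≤ |g i|), w i := by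
        have h6 : ∀ i ∈ ((V ∪ W)ᶜ).filter (fun i => (2 : ℝ) ^ (h + 1) ≤ |g i|), w i = L := by
          intro i hi
          rw [hw]
          have h7 : i ∉ W := by
            intro hcon
            have h8 := (Finset.mem_filter.mp hi).1
            rw [Finset.mem_compl] at h8
            exact h8 (Finset.mem_union_right _ hcon)
          simp only [h7, if_false]
        rw [Finset.sum_congr rfl h6, Finset.sum_const, nsmul_eq_mul]
        ring
      rw [h5]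
      apply Finset.sum_le_sum_of_subset_of_nonneg
      · intro i hi
        rw [Finset.mem_filter, Finset.mem_compl] at hi ⊢
        exact ⟨fun hcon => hi.1 (Finset.mem_union_left _ hcon), hi.2⟩
      · intro i _ _
        exact hw0 i
    have h4 : C0 * m0 / L * (2 : ℝ) ^ (|(h : ℝ)| / 40)
        = (C0 * (2 : ℝ) ^ (|(h : ℝ)| / 40) * m0) / L := by ring
    rw [h4, le_div_iff₀ hL0]
    have h5 := mul_le_mul_of_nonneg_left h3 (hpow h).le
    nlinarith
  have hNW : ∀ h : ℤ, (2 : ℝ) ^ h * ∑ i ∈ W.filter (fun i => (2 : ℝ) ^ (h + 1) ≤ |g i|),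
        th i ^ (1 / 200 : ℝ) ≤ C0 * m0 * (2 : ℝ) ^ (|(h : ℝ)| / 40) := by
    intro h
    have h1 := hN h
    have h2 : 0 ≤ (2 : ℝ) ^ h * (β * (#(V.filter (fun i => (2 : ℝ) ^ (h + 1) ≤ |g i|)) : ℝ)) := by
      positivity
    have h3 : ∑ i ∈ W.filter (fun i => (2 : ℝ) ^ (h + 1) ≤ |g i|), th i ^ (1 / 200 : ℝ)
        ≤ ∑ i ∈ Vᶜ.filter (fun i => (2 : ℝ) ^ (h + 1) ≤ |g i|), w i := by
      have h5 : ∑ i ∈ W.filter (fun i => (2 : ℝ) ^ (h + 1) ≤ |g i|), th i ^ (1 / 200 : ℝ)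
          = ∑ i ∈ W.filter (fun i => (2 : ℝ) ^ (h + 1) ≤ |g i|), w i := by
        apply Finset.sum_congr rfl
        intro i hi
        rw [hw]
        have h7 := (Finset.mem_filter.mp hi).1
        simp only [h7, if_true]
      rw [h5]
      apply Finset.sum_le_sum_of_subset_of_nonneg
      · intro i hi
        rw [Finset.mem_filter] at hi ⊢
        rw [Finset.mem_compl]
        exact ⟨fun hcon => Finset.disjoint_left.mp hVW hcon hi.1, hi.2⟩
      · intro i _ _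
        exact hw0 i
    have h5 := mul_le_mul_of_nonneg_left h3 (hpow h).le
    nlinarith
  -- quantisation
  obtain ⟨g', hg', hE, hnuW, hsqW⟩ := hquant ι P W th B g (C0 * m0) hCh hg (by positivity) hNW
  have hρm : ρ / C0 * (C0 * m0) = ρ * m0 := by
    field_simp
  rw [hρm] at hE hnuW hsqW
  have hEX : ∀ X : Finset ι, X ⊆ Wᶜ → ∑ i ∈ X, (g' i - g i) ^ 2 ≤ ρ * m0 := by
    intro X hX
    exact (Finset.sum_le_sum_of_subset_of_nonneg hX (fun i _ _ => sq_nonneg _)).trans hE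
  have hVW' : V ⊆ Wᶜ := by
    intro i hi
    rw [Finset.mem_compl]
    exact Finset.disjoint_left.mp hVW hi
  have hXW' : (V ∪ W)ᶜ ⊆ Wᶜ := by
    intro i hi
    rw [Finset.mem_compl] at hi ⊢
    exact fun hcon => hi (Finset.mem_union_right _ hcon)
  have hρm0 : 0 < ρ * m0 := by positivity
  -- the profiles of `g` on `V` and on the rest
  have pV1 := (hprof ι V g (C0 * m0 / β) (γ / 2) (by positivity) (by positivity) (by linarith)
    hNV).1
  have pV2 := (hprof ι V g (C0 * m0 / β) (2 * γ) (by positivity) (by positivity) hγ2 hNV).2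
  have pX1 := (hprof ι ((V ∪ W)ᶜ) g (C0 * m0 / L) (γ / 2) (by positivity) (by positivity)
    (by linarith) hNX).1
  have pX2 := (hprof ι ((V ∪ W)ᶜ) g (C0 * m0 / L) (2 * γ) (by positivity) (by positivity) hγ2
    hNX).2
  rw [hsq] at pV2 pX2
  have qV1 := nu_cmp V g g' γ (ρ * m0) hγ hγ1 (hEX V hVW')
  have qX1 := nu_cmp ((V ∪ W)ᶜ) g g' γ (ρ * m0) hγ hγ1 (hEX _ hXW')
  have qV2 := sq_cmp V g g' γ (ρ * m0) hγ (hEX V hVW')
  have qX2 := sq_cmp ((V ∪ W)ᶜ) g g' γ (ρ * m0) hγ (hEX _ hXW')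
  have hLβ : C0 * m0 / L ≤ C0 * m0 / β :=
    div_le_div_of_nonneg_left (by positivity) hβ (by linarith)
  obtain ⟨G, hGdef⟩ : ∃ G : Finset ι, G = univ.filter (fun i => γ ≤ |g' i|) := ⟨_, rfl⟩
  have hGV : G ∩ V = V.filter (fun i => γ ≤ |g' i|) := by
    ext i
    simp [hGdef, and_comm]
  have hGM : G \ V = (((V ∪ W)ᶜ).filter (fun i => γ ≤ |g' i|))
      ∪ (W.filter (fun i => γ ≤ |g' i|)) := by
    ext i
    have h1 := fun h : i ∈ V => Finset.disjoint_left.mp hVW h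
    simp only [hGdef, Finset.mem_sdiff, Finset.mem_filter, Finset.mem_univ, true_and,
      Finset.mem_union, Finset.mem_compl]
    tauto
  have hdisj : Disjoint (((V ∪ W)ᶜ).filter (fun i => γ ≤ |g' i|))
      (W.filter (fun i => γ ≤ |g' i|)) := by
    rw [Finset.disjoint_left]
    intro i hi hi2
    have h1 := (Finset.mem_filter.mp hi).1
    rw [Finset.mem_compl] at h1
    exact h1 (Finset.mem_union_right _ (Finset.mem_filter.mp hi2).1)
  have hnuGM : nu g' (G \ V) = nu g' (((V ∪ W)ᶜ).filter (fun i => γ ≤ |g' i|))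
      + nu g' (W.filter (fun i => γ ≤ |g' i|)) := by
    rw [hGM]
    unfold nu
    exact Finset.sum_union hdisj
  have e1 : 2 * (D0 / (γ / 2) * (C0 * m0 / L)) = 4 * (D0 * C0) / γ * m0 / L := by
    field_simp
    ring
  have e2 : 2 * (D0 / (γ / 2) * (C0 * m0 / β)) = 4 * (D0 * C0) / (γ * β) * m0 := by
    field_simp
    ring
  have hρ1' : (8 / γ ^ 2 + 1) * ρ * m0 ≤ m0 / L := by
    have h1 := mul_le_mul_of_nonneg_right hρ1 hm0.le
    have h2 : 1 / L * m0 = m0 / L := by ring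
    linarith
  have hmL : m0 / L ≤ m0 := div_le_self hm0.le hL
  have hnuM : nu g' (G \ V) ≤ c2 * m0 / L := by
    rw [hnuGM]
    have h1 : c2 * m0 / L = 4 * (D0 * C0) / γ * m0 / L + m0 / L := by
      rw [hc2]
      ring
    rw [h1, ← e1]
    have h2 : 8 / γ ^ 2 * (ρ * m0) + ρ * m0 = (8 / γ ^ 2 + 1) * ρ * m0 := by ring
    linarith
  have hnuG : nu g' G ≤ c1 * m0 := by
    have h1 : nu g' G = nu g' (G ∩ V) + nu g' (G \ V) := by
      unfold nu
      exact (Finset.sum_inter_add_sum_sdiff G V _).symm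
    rw [h1, hGV, hnuGM]
    have h2 : c1 * m0 = 4 * (D0 * C0) / (γ * β) * m0 + 4 * (D0 * C0) / (γ * β) * m0 + m0 := by
      rw [hc1]
      ring
    have h3 : 2 * (D0 / (γ / 2) * (C0 * m0 / L)) ≤ 2 * (D0 / (γ / 2) * (C0 * m0 / β)) := by
      apply mul_le_mul_of_nonneg_left _ (by norm_num)
      exact mul_le_mul_of_nonneg_left hLβ (by positivity)
    -- the noise on `V` and on the rest together
    have h4 : 8 / γ ^ 2 * (ρ * m0) + ρ * m0 = (8 / γ ^ 2 + 1) * ρ * m0 := by ring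
    have qVX := nu_cmp (V ∪ (V ∪ W)ᶜ) g g' γ (ρ * m0) hγ hγ1 (hEX _ (by
      intro i hi
      rcases Finset.mem_union.mp hi with h | h
      · exact hVW' h
      · exact hXW' h))
    have hd2 : Disjoint V ((V ∪ W)ᶜ) := by
      rw [Finset.disjoint_left]
      intro i hi hi2
      rw [Finset.mem_compl] at hi2
      exact hi2 (Finset.mem_union_left _ hi)
    have h5 : ∀ (φ : ι → ℝ) (p : ι → Prop), nu φ ((V ∪ (V ∪ W)ᶜ).filter p)
        = nu φ (V.filter p) + nu φ (((V ∪ W)ᶜ).filter p) := by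
      intro φ p
      unfold nu
      rw [Finset.filter_union, Finset.sum_union (Finset.disjoint_filter_filter hd2)]
    rw [h5, h5] at qVX
    rw [h2, ← e2]
    linarith
  -- the defect of `G`
  have hDG : DD P g' G ≤ 4 * (D0 * C0) * t / β * m0 + 3 * ρ * m0 := by
    refine (DD_large hP g' hg' G).trans ?_
    have h1 : ∑ i ∈ Gᶜ, g' i ^ 2 = ∑ i ∈ (V ∪ (V ∪ W)ᶜ).filter (fun i => |g' i| < γ), g' i ^ 2
        + ∑ i ∈ W.filter (fun i => |g' i| < γ), g' i ^ 2 := by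
      rw [← Finset.sum_union]
      · apply Finset.sum_congr _ (fun _ _ => rfl)
        ext i
        simp only [hGdef, Finset.mem_compl, Finset.mem_filter, Finset.mem_univ, true_and,
          Finset.mem_union, not_le]
        tauto
      · apply Finset.disjoint_filter_filter
        rw [Finset.disjoint_left]
        intro i hi hi2
        rcases Finset.mem_union.mp hi with h | h
        · exact Finset.disjoint_left.mp hVW h hi2
        · rw [Finset.mem_compl] at h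
          exact h (Finset.mem_union_right _ hi2)
    have qVX := sq_cmp (V ∪ (V ∪ W)ᶜ) g g' γ (ρ * m0) hγ (hEX _ (by
      intro i hi
      rcases Finset.mem_union.mp hi with h | h
      · exact hVW' h
      · exact hXW' h))
    have hd2 : Disjoint V ((V ∪ W)ᶜ) := by
      rw [Finset.disjoint_left]
      intro i hi hi2
      rw [Finset.mem_compl] at hi2
      exact hi2 (Finset.mem_union_left _ hi)
    have h5 : ∑ i ∈ (V ∪ (V ∪ W)ᶜ).filter (fun i => |g i| < 2 * γ), g i ^ 2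
        = ∑ i ∈ V.filter (fun i => |g i| < 2 * γ), g i ^ 2
          + ∑ i ∈ ((V ∪ W)ᶜ).filter (fun i => |g i| < 2 * γ), g i ^ 2 := by
      rw [Finset.filter_union, Finset.sum_union (Finset.disjoint_filter_filter hd2)]
    rw [h5] at qVX
    have h2 : D0 * t * (C0 * m0 / L) ≤ D0 * t * (C0 * m0 / β) :=
      mul_le_mul_of_nonneg_left hLβ (by positivity)
    have h4 : 4 * (D0 * C0) * t / β * m0
        = 2 * (D0 * t * (C0 * m0 / β) + D0 * t * (C0 * m0 / β)) := by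
      ring
    rw [h1, h4]
    linarith
  -- the number of medium points
  have hcard : (#((G ∩ V).filter (fun i => 1 / 2 ≤ |g' i|)) : ℝ) ≤ c3 * m0 := by
    have h0 := cnt_cmp V g g' (ρ * m0) (hEX V hVW')
    have h1 := hNV (-3)
    have h2 : (#((G ∩ V).filter (fun i => 1 / 2 ≤ |g' i|)) : ℝ)
        ≤ (#(V.filter (fun i => 1 / 2 ≤ |g' i|)) : ℝ) := by
      exact_mod_cast Finset.card_le_card (by
        intro i hi
        rw [Finset.mem_filter] at hi ⊢
        exact ⟨(Finset.mem_inter.mp hi.1).2, hi.2⟩)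
    have h3 : (2 : ℝ) ^ ((-3 : ℤ) + 1) = 1 / 4 := by norm_num
    have h4 : (2 : ℝ) ^ (-3 : ℤ) = 1 / 8 := by norm_num
    have h5 := pow_small ((-3 : ℤ) : ℝ) (by
      push_cast
      rw [abs_neg, abs_of_pos (by norm_num : (0 : ℝ) < 3)]
      norm_num)
    rw [h3, h4] at h1
    have h6 : C0 * m0 / β * (2 : ℝ) ^ (|((-3 : ℤ) : ℝ)| / 40) ≤ C0 * m0 / β * 2 :=
      mul_le_mul_of_nonneg_left h5 (by positivity)
    have h7 : 16 * (ρ * m0) ≤ C0 / β * m0 := by
      have h8 : 1 ≤ C0 / β := by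
        rw [le_div_iff₀ hβ]
        linarith
      have h9 := mul_le_mul_of_nonneg_right h8 hm0.le
      have h10 := mul_le_mul_of_nonneg_right hρ4 hm0.le
      linarith
    have h8 : c3 * m0 = 16 * (C0 * m0 / β) + C0 / β * m0 := by
      rw [hc3]
      ring
    rw [h8]
    linarith
  -- the gain
  have hTT : ∑ i ∈ V, |TT (g' i) - TT (g i)| ≤ β / 16 * m0 := by
    have h0 := TT_cmp V g g' lam (ρ * m0) hlam0 (hEX V hVW')
    have h1 := hNV (-2)
    have h3 : (2 : ℝ) ^ ((-2 : ℤ) + 1) = 1 / 2 := by norm_num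
    have h4 : (2 : ℝ) ^ (-2 : ℤ) = 1 / 4 := by norm_num
    have h5 := pow_small ((-2 : ℤ) : ℝ) (by
      push_cast
      rw [abs_neg, abs_of_pos (by norm_num : (0 : ℝ) < 2)]
      norm_num)
    rw [h3, h4] at h1
    have h6 : C0 * m0 / β * (2 : ℝ) ^ (|((-2 : ℤ) : ℝ)| / 40) ≤ C0 * m0 / β * 2 :=
      mul_le_mul_of_nonneg_left h5 (by positivity)
    have h7 : (#(V.filter (fun i => 1 / 2 ≤ |g i|)) : ℝ) ≤ 8 * (C0 * m0 / β) := by linarith
    have h8 : lam / 2 * (#(V.filter (fun i => 1 / 2 ≤ |g i|)) : ℝ) ≤ β / 48 * m0 := by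
      refine (mul_le_mul_of_nonneg_left h7 (by positivity)).trans (le_of_eq ?_)
      rw [hlam]
      field_simp
      ring
    have h9 := mul_le_mul_of_nonneg_right hρ3 hm0.le
    linarith
  have hb' : 7 / 16 * β * m0 ≤ ∑ i ∈ V, ξ i * TT (g' i) := by
    have h1 : ∑ i ∈ V, ξ i * TT (g i) - ∑ i ∈ V, ξ i * TT (g' i)
        ≤ ∑ i ∈ V, |TT (g' i) - TT (g i)| := by
      rw [← Finset.sum_sub_distrib]
      apply Finset.sum_le_sum
      intro i hi
      have h2 : ξ i * TT (g i) - ξ i * TT (g' i) = -(ξ i * (TT (g' i) - TT (g i))) := by ring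
      rw [h2]
      refine (neg_le_abs _).trans ?_
      rw [abs_mul]
      have h3 := mul_le_mul_of_nonneg_right (hξ i hi) (abs_nonneg (TT (g' i) - TT (g i)))
      linarith
    linarith
  have hm' : ∑ i ∈ V, |TT (g' i)| ≤ (1 + β / 16) * m0 := by
    have h1 : ∑ i ∈ V, |TT (g' i)| ≤ ∑ i ∈ V, |TT (g i)| + ∑ i ∈ V, |TT (g' i) - TT (g i)| := by
      rw [← Finset.sum_add_distrib]
      apply Finset.sum_le_sum
      intro i _
      have h2 := abs_add_le (TT (g i)) (TT (g' i) - TT (g i))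
      rwa [add_sub_cancel] at h2
    rw [← hm0def] at h1
    linarith
  have he0p : 0 < ε * β / 32 := by positivity
  have hfin : DD P g' G + 40 * κ / γ * (c1 * m0) ≤ ε * β / 32 * m0 := by
    have h1 : 4 * (D0 * C0) * t / β * m0 = ε * β / 96 * m0 := by
      have h2 : 4 * (D0 * C0) * t / β = ε * β / 96 := by
        have h3 : 4 * (D0 * C0) * t = ε * β ^ 2 / 96 := by linarith
        rw [h3]
        field_simp
      rw [h2]
    have h4 : 40 * κ / γ * (c1 * m0) = ε * β / 96 * m0 := by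
      rw [hκdef]
      field_simp
      ring
    have h5 := mul_le_mul_of_nonneg_right hρ2 hm0.le
    rw [h4]
    rw [h1] at hDG
    have h6 : ε * β / 32 * m0 = ε * β / 96 * m0 + ε * β / 96 * m0 + ε * β / 96 * m0 := by ring
    linarith
  rw [hGdef] at hnuG hnuM hcard hfin
  obtain ⟨Z, m, hm, hmpos, hbZ, hlow, hlink, q1, q2, q3, q4⟩ := core hPART P V g' ξ β γ κ L m0
    (ε * β / 32) c1 c2 c3 hP hβ hβ1 hγ hγ1 hκ hL hm0 he0p hc1p hc2p hc3p hξ hb' hm' hnuG hnuM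
    hcard hfin
  refine ⟨g', Z, m, hm, hmpos, hbZ, hlow, hlink, ?_, ?_, ?_, ?_⟩
  · refine q1.trans ?_
    have h1 : 0 ≤ 32 / β * m * c2 := by positivity
    have h2 : 32 / β * (c1 + c2) * m = 32 / β * m * c1 + 32 / β * m * c2 := by ring
    linarith
  · have h1 : 32 / β * (c1 + c2) / L * m = (32 / β * m * c1 + 32 / β * m * c2) / L := by
      ring
    rw [h1, le_div_iff₀ hL0]
    have h2 : 0 ≤ 32 / β * m * c1 := by positivity
    linarith
  · refine q3.trans (le_of_eq ?_)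
    field_simp
  · refine q4.trans (le_of_eq ?_)
    rw [hc3]
    field_simp
    ring

end

end Pool.Agent.Helper82.ZS2
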